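import Pool.Agent.K1H79.RF.Kum
import Pool.Agent.Y772.DK.Dir

/-! # Split primes in unramified cyclic cubic extensions, nonsplit primes in quadratic extensions

Sums `∑ N(v)^(-s)` over primes: the comparison of the sums over the primes of `M` and of `E`. -/

set_option autoImplicit false

namespace Pool.Agent.K1H76.RF2

open NumberField IsDedekindDomain CohNT Pool.Agent.K1H79.RF
open scoped Classical nonZeroDivisors

section one

/-- the norm of a prime to the power `-s` -/
noncomputable def np (F : Type) [Field F] [NumberField F] (s : ℝ) (v : Pr F) : ℝ :=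
  ((Ideal.absNorm v.asIdeal : ℕ) : ℝ) ^ (-s)

/-- the sum over the primes with the property `P` -/
noncomputable def sm (F : Type) [Field F] [NumberField F] (P : Pr F → Prop) (s : ℝ) : ℝ :=
  ∑' v : Pr F, if P v then np F s v else 0

variable {F : Type} [Field F] [NumberField F]

theorem np_nonneg (s : ℝ) (v : Pr F) : 0 ≤ np F s v := Real.rpow_nonneg (Nat.cast_nonneg _) _

theorem nm_one (v : Pr F) : (1 : ℝ) ≤ ((Ideal.absNorm v.asIdeal : ℕ) : ℝ) := by
  have h : Ideal.absNorm v.asIdeal ≠ 0 := by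
    rw [Ne, Ideal.absNorm_eq_zero_iff]; exact v.ne_bot
  exact_mod_cast Nat.one_le_iff_ne_zero.2 h

theorem np_anti {s t : ℝ} (h : s ≤ t) (v : Pr F) : np F t v ≤ np F s v :=
  Real.rpow_le_rpow_of_exponent_le (nm_one v) (by linarith)

theorem np_summ {s : ℝ} (hs : 1 < s) : Summable (np F s) :=
  (Pool.Agent.Y772.DK.nr_summable F hs).comp_injective
    (i := fun v : Pr F => v.asIdeal) (fun _ _ h => HeightOneSpectrum.ext h)

theorem npP_summ (P : Pr F → Prop) {s : ℝ} (hs : 1 < s) :
    Summable (fun v : Pr F => if P v then np F s v else 0) := by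
  refine Summable.of_nonneg_of_le (fun v => ?_) (fun v => ?_) (np_summ (F := F) hs)
  · split_ifs
    · exact np_nonneg s v
    · exact le_rfl
  · split_ifs
    · exact le_rfl
    · exact np_nonneg s v

theorem sm_all (s : ℝ) : sm F (fun _ => True) s = ∑' v : Pr F, np F s v := by
  unfold sm
  simp

theorem sm_split (P : Pr F → Prop) {s : ℝ} (hs : 1 < s) :
    sm F (fun _ => True) s = sm F P s + sm F (fun v => ¬ P v) s := by
  rw [sm_all]
  unfold sm
  rw [← Summable.tsum_add (npP_summ P hs) (npP_summ (fun v => ¬ P v) hs)]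
  refine tsum_congr fun v => ?_
  by_cases h : P v <;> simp [h]

end one

variable {E M : Type} [Field E] [NumberField E] [Field M] [NumberField M] [Algebra E M]

theorem fib {s : ℝ} (hs : 1 < s) :
    HasSum (fun v : Pr E => ∑ w ∈ (ab_fin (M := M) v).toFinset, np M s w) (sm M (fun _ => True) s) := by
  obtain ⟨g, hg⟩ : ∃ g : Pr M → Pr E, ∀ w, Ab (g w) w :=
    ⟨fun w => HeightOneSpectrum.under (𝓞 E) w, fun w => Ideal.over_under _⟩
  have h1 := (np_summ (F := M) hs).hasSum.tsum_fiberwise g
  rw [sm_all]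
  have h2 : (fun v : Pr E => ∑ w ∈ (ab_fin (M := M) v).toFinset, np M s w) =
      fun v : Pr E => ∑' w : g ⁻¹' {v}, np M s w := by
    funext v
    have h3 : g ⁻¹' {v} = ((ab_fin (M := M) v).toFinset : Set (Pr M)) := by
      ext w
      rw [Set.mem_preimage, Set.mem_singleton_iff, Set.Finite.coe_toFinset, Set.mem_ofPred_eq]
      constructor
      · rintro rfl
        exact hg w
      · intro h
        exact (above_api (M := M) v).2.2.1 w (g w) h (hg w) |>.symm
    rw [h3]
    exact (Finset.tsum_subtype (ab_fin (M := M) v).toFinset (np M s)).symm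
  rw [h2]
  exact h1

/-- norms of primes above `v` -/
theorem np_rel {v : Pr E} {w : Pr M} {k : ℕ} (h : Ideal.relNorm (𝓞 E) w.asIdeal = v.asIdeal ^ k) (s : ℝ) :
    np M s w = np E (k * s) v := by
  unfold np
  rw [← absNorm_rel (E := E) w.asIdeal, h, map_pow, Nat.cast_pow, ← Real.rpow_natCast, ← Real.rpow_mul (Nat.cast_nonneg _)]
  congr 1
  ring

theorem a3_fib (h3 : Module.finrank E M = 3) (σ : M ≃ₐ[E] M) (hσ : σ ≠ 1) (hun : UnrAll E M) (s : ℝ) (v : Pr E) :
    ∑ w ∈ (ab_fin (M := M) v).toFinset, np M s w =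
      if ¬ NSp M v then 3 * np E s v else np E (3 * s) v := by
  have hcard := above_card h3 σ hσ v
  rw [Set.ncard_eq_toFinset_card _ (ab_fin (M := M) v)] at hcard
  by_cases hv : NSp M v
  · rw [if_neg (not_not.2 hv)]
    rw [if_pos hv] at hcard
    have h1 : ∀ w ∈ (ab_fin (M := M) v).toFinset, np M s w = np E (3 * s) v := by
      intro w hw
      rw [Set.Finite.mem_toFinset] at hw
      have := np_rel (rel_nonsplit h3 hun hv hw) s
      rw [this]
      norm_num
    rw [Finset.sum_congr rfl h1, Finset.sum_const, hcard, one_smul]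
  · rw [if_pos hv]
    rw [if_neg hv] at hcard
    have h1 : ∀ w ∈ (ab_fin (M := M) v).toFinset, np M s w = np E s v := by
      intro w hw
      rw [Set.Finite.mem_toFinset] at hw
      have h2 : Ideal.relNorm (𝓞 E) w.asIdeal = v.asIdeal ^ 1 := by
        rw [pow_one]; exact rel_split h3 σ hσ hun hv hw
      have := np_rel h2 s
      rw [this]
      norm_num
    rw [Finset.sum_congr rfl h1, Finset.sum_const, hcard, nsmul_eq_mul]
    norm_num

theorem a3_eq (h3 : Module.finrank E M = 3) (σ : M ≃ₐ[E] M) (hσ : σ ≠ 1) (hun : UnrAll E M) {s : ℝ} (hs : 1 < s) :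
    sm M (fun _ => True) s = 3 * sm E (fun v => ¬ NSp M v) s + sm E (fun v => NSp M v) (3 * s) := by
  have hs3 : 1 < 3 * s := by linarith
  rw [← (fib (E := E) (M := M) hs).tsum_eq]
  unfold sm
  rw [← tsum_mul_left, ← Summable.tsum_add ((npP_summ _ hs).mul_left 3) (npP_summ _ hs3)]
  refine tsum_congr fun v => ?_
  rw [a3_fib h3 σ hσ hun]
  by_cases hv : NSp M v <;> simp [hv]

theorem sm_nonneg (P : Pr E → Prop) (s : ℝ) : 0 ≤ sm E P s := by
  refine tsum_nonneg fun v => ?_
  split_ifs
  · exact np_nonneg _ v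
  · exact le_rfl

theorem a3 (h3 : Module.finrank E M = 3) (σ : M ≃ₐ[E] M) (hσ : σ ≠ 1) (hun : UnrAll E M) {s : ℝ} (hs : 1 < s) :
    |3 * sm E (fun v => ¬ NSp M v) s - sm M (fun _ => True) s| ≤ ∑' v : Pr E, np E 2 v := by
  have hs3 : 1 < 3 * s := by linarith
  rw [a3_eq h3 σ hσ hun hs, sub_add_cancel_left, abs_neg, abs_of_nonneg (sm_nonneg _ _)]
  refine Summable.tsum_le_tsum (fun v => ?_) (npP_summ _ hs3) (np_summ (by norm_num))
  split_ifs
  · exact np_anti (by linarith) v
  · exact np_nonneg _ v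

/-- quadratic extensions: split primes -/
theorem a4_fib (h2 : Module.finrank E M = 2) (s : ℝ) {v : Pr E} (hv : ¬ NSp M v) :
    ∑ w ∈ (ab_fin (M := M) v).toFinset, np M s w = 2 * np E s v := by
  obtain ⟨e, he, hsum⟩ := ks (M := M) v
  rw [h2] at hsum
  obtain ⟨w0, hw0⟩ := (above_api (M := M) v).1
  have hex : ∃ w1 : Pr M, Ab v w1 ∧ w1 ≠ w0 := by
    by_contra hcon
    push Not at hcon
    exact hv ⟨w0, hw0, fun y hy => hcon y hy⟩
  obtain ⟨w1, hw1, hne⟩ := hex
  have hle : ∀ u ∈ (ab_fin (M := M) v).toFinset, 1 ≤ e u * cn u (ex M v.asIdeal) := by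
    intro u hu
    rw [Set.Finite.mem_toFinset] at hu
    obtain ⟨a1, a2, -⟩ := he u hu
    exact Nat.mul_pos a1 a2
  have hsub : ({w0, w1} : Finset (Pr M)) ⊆ (ab_fin (M := M) v).toFinset := by
    intro x hx
    rw [Finset.mem_insert, Finset.mem_singleton] at hx
    rw [Set.Finite.mem_toFinset]
    rcases hx with rfl | rfl
    · exact hw0
    · exact hw1
  have hc2 : ({w0, w1} : Finset (Pr M)).card = 2 := Finset.card_pair hne.symm
  have hcard : (ab_fin (M := M) v).toFinset.card ≤ 2 := by
    rw [← hsum, Finset.card_eq_sum_ones]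
    exact Finset.sum_le_sum hle
  have heq : ({w0, w1} : Finset (Pr M)) = (ab_fin (M := M) v).toFinset :=
    Finset.eq_of_subset_of_card_le hsub (by rw [hc2]; exact hcard)
  have hone : ∀ u ∈ (ab_fin (M := M) v).toFinset, np M s u = np E s v := by
    intro u hu
    have h8 := Finset.add_sum_erase _ (fun u => e u * cn u (ex M v.asIdeal)) hu
    have h9 : ((ab_fin (M := M) v).toFinset.erase u).card • 1 ≤
        ∑ u ∈ (ab_fin (M := M) v).toFinset.erase u, e u * cn u (ex M v.asIdeal) := by
      apply Finset.card_nsmul_le_sum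
      intro x hx
      exact hle x (Finset.mem_of_mem_erase hx)
    rw [Finset.card_erase_of_mem hu, ← heq, hc2, smul_eq_mul, mul_one, heq] at h9
    have h10 := hle u hu
    rw [Set.Finite.mem_toFinset] at hu
    obtain ⟨a1, a2, a3⟩ := he u hu
    have h11 : e u * cn u (ex M v.asIdeal) = 1 := by
      have h12 : e u * cn u (ex M v.asIdeal) + ∑ x ∈ (ab_fin (M := M) v).toFinset.erase u,
        e x * cn x (ex M v.asIdeal) = 2 := by
        rw [← hsum]; exact h8
      omega
    have h12 : e u = 1 := Nat.eq_one_of_mul_eq_one_right h11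
    rw [h12] at a3
    have := np_rel a3 s
    rw [this]
    norm_num
  rw [Finset.sum_congr rfl hone, Finset.sum_const, ← heq, hc2, nsmul_eq_mul]
  norm_num

theorem a4 (h2 : Module.finrank E M = 2) {s : ℝ} (hs : 1 < s) :
    2 * sm E (fun v => ¬ NSp M v) s ≤ sm M (fun _ => True) s := by
  have h1 := fib (E := E) (M := M) hs
  rw [← h1.tsum_eq]
  unfold sm
  rw [← tsum_mul_left]
  refine Summable.tsum_le_tsum (fun v => ?_) ((npP_summ _ hs).mul_left 2) h1.summable
  split_ifs with hv
  · exact (a4_fib h2 s hv).ge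
  · rw [mul_zero]
    exact Finset.sum_nonneg fun w _ => np_nonneg s w

end Pool.Agent.K1H76.RF2
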