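import Pool.Agent.K1H79.RF.Stm
import Pool.Agent.K1H76.RF2.T2c

/-! # The pieces `S_A3` and `S_A4` -/

set_option autoImplicit false

namespace Pool.Agent.K1H76.RF2

open NumberField IsDedekindDomain CohNT Pool.Agent.K1H79.RF
open scoped Classical nonZeroDivisors

theorem t_A3 : S_A3 := by
  intro hA1 E M _ _ _ _ _ h3 σ hσ hun
  obtain ⟨C, hC⟩ := hA1 M
  refine ⟨C + ∑' v : Pr E, np E 2 v, fun s hs hs2 => ?_⟩
  have h1 : |sm M (fun _ => True) s - Real.log (1 / (s - 1))| ≤ C := hC s hs hs2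
  have h2 := a3 h3 σ hσ hun hs
  calc |3 * Sm E (fun v => ¬ NSp M v) s - Real.log (1 / (s - 1))|
      = |(sm M (fun _ => True) s - Real.log (1 / (s - 1))) +
          (3 * sm E (fun v => ¬ NSp M v) s - sm M (fun _ => True) s)| := by
        congr 1
        have : Sm E (fun v => ¬ NSp M v) s = sm E (fun v => ¬ NSp M v) s := rfl
        rw [this]
        ring
    _ ≤ C + ∑' v : Pr E, np E 2 v := (abs_add_le _ _).trans (add_le_add h1 h2)

theorem t_A4 : S_A4 := by
  intro hA1 L K _ _ _ _ _ h2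
  obtain ⟨C1, hC1⟩ := hA1 L
  obtain ⟨C2, hC2⟩ := hA1 K
  refine ⟨2 * C1 + C2, fun s hs hs2 => ?_⟩
  have h3 : |sm L (fun _ => True) s - Real.log (1 / (s - 1))| ≤ C1 := hC1 s hs hs2
  have h4 : |sm K (fun _ => True) s - Real.log (1 / (s - 1))| ≤ C2 := hC2 s hs hs2
  have h5 := a4 (E := L) (M := K) h2 hs
  have h6 := sm_split (F := L) (fun v => NSp K v) hs
  have h7 : Sm L (fun v => NSp K v) s = sm L (fun v => NSp K v) s := rfl
  rw [h7]
  have h8 := (abs_le.1 h3).1
  have h9 := (abs_le.1 h4).2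
  linarith

end Pool.Agent.K1H76.RF2
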